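import Pool.Agent.Helper29.OT.St

/-!
Module AL of project OT: lower bound for the slope on the clique side.
-/

set_option autoImplicit false

namespace Pool.Agent.Helper71.OT

open Finset Pool.Agent.Helper14.FEM Pool.Agent.Helper3.EMK Pool.Agent.Helper29.TK
  Pool.Agent.Helper29.OT

/-- upper bound for a difference of powers -/
private theorem AL_up (k : ℕ) (u v : ℝ) (hu : 0 ≤ u) (huv : u ≤ v) (hv : v ≤ 1) :
    v ^ k - u ^ k ≤ k * (v - u) := by
  induction k with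
  | zero => simp
  | succ k ih =>
    have h1 : 0 ≤ v := hu.trans huv
    have h2 : v ^ k ≤ 1 := pow_le_one₀ h1 hv
    have h3 : 0 ≤ u ^ k := pow_nonneg hu k
    have h4 : u ^ k ≤ v ^ k := pow_le_pow_left₀ hu huv k
    have e : v ^ (k + 1) - u ^ (k + 1) = v ^ k * (v - u) + u * (v ^ k - u ^ k) := by ring
    rw [e]
    push_cast
    have h5 : v ^ k * (v - u) ≤ 1 * (v - u) :=
      mul_le_mul_of_nonneg_right h2 (by linarith)
    have h6 : u * (v ^ k - u ^ k) ≤ 1 * (v ^ k - u ^ k) :=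
      mul_le_mul_of_nonneg_right (by linarith) (by linarith)
    nlinarith

/-- lower bound for a difference of powers -/
private theorem AL_lo (k : ℕ) (u v : ℝ) (hu : 0 ≤ u) (huv : u ≤ v) :
    (k : ℝ) * u ^ (k - 1) * (v - u) ≤ v ^ k - u ^ k := by
  induction k with
  | zero => simp
  | succ k ih =>
    have h1 : 0 ≤ v := hu.trans huv
    have h4 : u ^ k ≤ v ^ k := pow_le_pow_left₀ hu huv k
    have e : v ^ (k + 1) - u ^ (k + 1) = v ^ k * (v - u) + u * (v ^ k - u ^ k) := by ring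
    rw [e]
    have h5 : u ^ k * (v - u) ≤ v ^ k * (v - u) :=
      mul_le_mul_of_nonneg_right h4 (by linarith)
    have h6 : u * ((k : ℝ) * u ^ (k - 1) * (v - u)) ≤ u * (v ^ k - u ^ k) :=
      mul_le_mul_of_nonneg_left ih hu
    have h7 : u * ((k : ℝ) * u ^ (k - 1) * (v - u)) = k * u ^ k * (v - u) := by
      rcases k with _ | k
      · simp
      · rw [Nat.add_sub_cancel, pow_succ]; ring
    rw [Nat.add_sub_cancel]
    push_cast
    rw [h7] at h6
    nlinarith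

private theorem AL_rt_pow (k : ℕ) (hk : 2 ≤ k) (x : ℝ) (hx : 0 ≤ x) : rt k x ^ k = x := by
  unfold rt
  rw [one_div]
  exact Real.rpow_inv_natCast_pow hx (by omega)

private theorem AL_pow_rt (k : ℕ) (hk : 2 ≤ k) (x : ℝ) (hx : 0 ≤ x) : rt k (x ^ k) = x := by
  unfold rt
  rw [one_div]
  exact Real.pow_rpow_inv_natCast hx (by omega)

private theorem AL_rt_nonneg (k : ℕ) (x : ℝ) (hx : 0 ≤ x) : 0 ≤ rt k x :=
  Real.rpow_nonneg hx _

private theorem AL_rt_mono (k : ℕ) (x y : ℝ) (hx : 0 ≤ x) (hxy : x ≤ y) : rt k x ≤ rt k y :=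
  Real.rpow_le_rpow hx hxy (by positivity)

private theorem AL_rt_le_one (k : ℕ) (x : ℝ) (hx : 0 ≤ x) (hx1 : x ≤ 1) : rt k x ≤ 1 :=
  Real.rpow_le_one hx hx1 (by positivity)

/-- `k D^(k-1) ≥ 1` if `D^k ≥ 1/4` -/
private theorem AL_der (k : ℕ) (hk : 2 ≤ k) (D : ℝ) (hD : 0 ≤ D) (hD1 : D ≤ 1)
    (h : 1 / 4 ≤ D ^ k) : 1 ≤ (k : ℝ) * D ^ (k - 1) := by
  obtain ⟨m, rfl⟩ : ∃ m, k = m + 2 := ⟨k - 2, by omega⟩
  have e : m + 2 - 1 = m + 1 := by omega
  rw [e]
  have h1 : D ^ (m + 2) ≤ D ^ (m + 1) := pow_le_pow_of_le_one hD hD1 (by omega)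
  rcases m with _ | m
  · have h2 : D ^ (0 + 2) = D ^ 2 := by norm_num
    rw [h2] at h
    have h3 : (1 / 2 : ℝ) ≤ D := by nlinarith
    norm_num
    linarith
  · rcases m with _ | m
    · have h2 : D ^ (0 + 1 + 2) = D ^ 3 := by norm_num
      rw [h2] at h
      have h3 : (1 / 3 : ℝ) ≤ D ^ 2 := by
        by_contra hc
        push Not at hc
        have h4 : (D ^ 2) ^ 3 < (1 / 3) ^ 3 := pow_lt_pow_left₀ hc (by positivity) (by norm_num)
        have h5 : (D ^ 2) ^ 3 = (D ^ 3) ^ 2 := by ring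
        have h6 : (1 / 4 : ℝ) ^ 2 ≤ (D ^ 3) ^ 2 := pow_le_pow_left₀ (by norm_num) h 2
        rw [h5] at h4
        norm_num at h4 h6
        linarith
      norm_num
      linarith
    · push_cast
      have h2 : (1 / 4 : ℝ) ≤ D ^ (m + 1 + 1 + 1) := h.trans h1
      have h3 : (0 : ℝ) ≤ m := Nat.cast_nonneg m
      nlinarith

/-- the difference `KK - rt` is nondecreasing on `[1/4, 1)` -/
private theorem AL_mono (k : ℕ) (hk : 2 ≤ k) (Q P : ℝ) (hQ : 1 / 4 ≤ Q) (hQP : Q ≤ P)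
    (hP : P ≤ 1) : KK k Q - rt k Q ≤ KK k P - rt k P := by
  have h1 : (1 - Q) - (1 - P) ≤ k * (rt k (1 - Q) - rt k (1 - P)) := by
    have := AL_up k (rt k (1 - P)) (rt k (1 - Q)) (AL_rt_nonneg k _ (by linarith))
      (AL_rt_mono k _ _ (by linarith) (by linarith)) (AL_rt_le_one k _ (by linarith) (by linarith))
    rwa [AL_rt_pow k hk _ (by linarith), AL_rt_pow k hk _ (by linarith)] at this
  have h2 : (k : ℝ) * rt k Q ^ (k - 1) * (rt k P - rt k Q) ≤ P - Q := by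
    have := AL_lo k (rt k Q) (rt k P) (AL_rt_nonneg k _ (by linarith))
      (AL_rt_mono k _ _ (by linarith) (by linarith))
    rwa [AL_rt_pow k hk _ (by linarith), AL_rt_pow k hk _ (by linarith)] at this
  have h3 : 1 ≤ (k : ℝ) * rt k Q ^ (k - 1) := by
    apply AL_der k hk _ (AL_rt_nonneg k _ (by linarith)) (AL_rt_le_one k _ (by linarith)
      (by linarith))
    rw [AL_rt_pow k hk _ (by linarith)]
    exact hQ
  have h4 : rt k Q ≤ rt k P := AL_rt_mono k _ _ (by linarith) (by linarith)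
  have h5 : 1 * (rt k P - rt k Q) ≤ (k : ℝ) * rt k Q ^ (k - 1) * (rt k P - rt k Q) :=
    mul_le_mul_of_nonneg_right h3 (by linarith)
  unfold KK
  nlinarith

private theorem AL_KK_le (k : ℕ) (hk : 2 ≤ k) (P : ℝ) (hP0 : 0 ≤ P) (hP : P ≤ 17 / 20) :
    KK k P ≤ 2 := by
  have hk0 : (0 : ℝ) < k := by positivity
  have hk2 : (2 : ℝ) ≤ k := by exact_mod_cast hk
  by_contra hc
  push Not at hc
  unfold KK at hc
  have hy : rt k (1 - P) < 1 - 2 / k := by
    have : 2 / (k : ℝ) < 1 - rt k (1 - P) := by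
      rw [div_lt_iff₀ hk0]; linarith
    linarith
  have h1 : rt k (1 - P) ^ k ≤ (1 - 2 / (k : ℝ)) ^ k :=
    pow_le_pow_left₀ (AL_rt_nonneg k _ (by linarith)) hy.le k
  rw [AL_rt_pow k hk _ (by linarith)] at h1
  have h0 : 0 ≤ 1 - 2 / (k : ℝ) := by
    have : 2 / (k : ℝ) ≤ 1 := by rw [div_le_one hk0]; exact hk2
    linarith
  have h2 : (1 - 2 / (k : ℝ)) ^ k ≤ Real.exp (-2) := by
    have h3 : 1 - 2 / (k : ℝ) ≤ Real.exp (-(2 / (k : ℝ))) := by
      have := Real.add_one_le_exp (-(2 / (k : ℝ)))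
      linarith
    calc (1 - 2 / (k : ℝ)) ^ k ≤ (Real.exp (-(2 / (k : ℝ)))) ^ k := pow_le_pow_left₀ h0 h3 k
      _ = Real.exp (-2) := by
        rw [← Real.exp_nat_mul]
        congr 1
        field_simp
  have h4 : Real.exp (-2) < 3 / 20 := by
    have h5 : (2.7 : ℝ) < Real.exp 1 := by
      have := Real.exp_one_gt_d9
      linarith
    have h6 : Real.exp 2 = Real.exp 1 * Real.exp 1 := by
      rw [← Real.exp_add]; norm_num
    have h7 : (20 / 3 : ℝ) < Real.exp 2 := by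
      rw [h6]; nlinarith
    rw [Real.exp_neg]
    rw [inv_lt_comm₀ (Real.exp_pos 2) (by norm_num)]
    norm_num
    linarith
  linarith

private theorem AL_KK_ge (k : ℕ) (hk : 2 ≤ k) (P : ℝ) (hP0 : 17 / 20 ≤ P) (hP : P ≤ 1) :
    6 / 5 ≤ KK k P := by
  have hk0 : (0 : ℝ) < k := by positivity
  have hk2 : (2 : ℝ) ≤ k := by exact_mod_cast hk
  have hz : 6 / (5 * (k : ℝ)) ≤ 3 / 5 := by
    rw [div_le_div_iff₀ (by positivity) (by norm_num)]
    nlinarith
  have h1 : (2 / 5 : ℝ) ≤ (1 + -(6 / (5 * (k : ℝ)))) ^ ((k : ℝ) / 2) := by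
    have := one_add_mul_self_le_rpow_one_add (s := -(6 / (5 * (k : ℝ)))) (by linarith)
      (p := (k : ℝ) / 2) (by linarith)
    refine le_trans (le_of_eq ?_) this
    field_simp
    norm_num
  have hb : 0 ≤ 1 + -(6 / (5 * (k : ℝ))) := by linarith
  have h2 : ((1 + -(6 / (5 * (k : ℝ)))) ^ ((k : ℝ) / 2)) ^ 2 = (1 + -(6 / (5 * (k : ℝ)))) ^ k := by
    rw [← Real.rpow_natCast, ← Real.rpow_mul hb, ← Real.rpow_natCast]
    congr 1
    push_cast
    ring
  have h3 : (4 / 25 : ℝ) ≤ (1 + -(6 / (5 * (k : ℝ)))) ^ k := by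
    rw [← h2]
    nlinarith
  have h4 : rt k (1 - P) ≤ 1 + -(6 / (5 * (k : ℝ))) := by
    by_contra hc
    push Not at hc
    have h5 : (1 + -(6 / (5 * (k : ℝ)))) ^ k ≤ rt k (1 - P) ^ k := pow_le_pow_left₀ hb hc.le k
    rw [AL_rt_pow k hk _ (by linarith)] at h5
    linarith
  unfold KK
  have h6 : 6 / (5 * (k : ℝ)) ≤ 1 - rt k (1 - P) := by linarith
  rw [div_le_iff₀ (by positivity)] at h6
  linarith

theorem hAL (hAA : StAA) : StAL := by
  intro k hk a p E P ha hka hp hpka hp4 hE hE2 hgap hpP hP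
  obtain ⟨hA1, hA2, -⟩ := hAA k hk
  have hk0 : (0 : ℝ) < k := by positivity
  have hk2 : (2 : ℝ) ≤ k := by exact_mod_cast hk
  have ha1 : a ≤ 1 := by nlinarith
  -- first step
  have s1 : E ≤ KK k (p ^ k) - rt k (p ^ k) := by
    have e1 : rt k (1 - p ^ k) ^ k = 1 - p ^ k := AL_rt_pow k hk _ (by linarith)
    have hu : 0 ≤ rt k (1 - p ^ k) := AL_rt_nonneg k _ (by linarith)
    have huv : rt k (1 - p ^ k) ≤ 1 - a := by
      by_contra hc
      push Not at hc
      have : (1 - a) ^ k < rt k (1 - p ^ k) ^ k :=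
        pow_lt_pow_left₀ hc (by linarith) (by omega)
      rw [e1] at this
      linarith
    have h1 := AL_up k (rt k (1 - p ^ k)) (1 - a) hu huv (by linarith)
    rw [e1] at h1
    rw [AL_pow_rt k hk p hp]
    unfold KK
    nlinarith
  have s2 := AL_mono k hk (p ^ k) P hp4 hpP hP.le
  have s3 : E ≤ KK k P - rt k P := s1.trans s2
  have hPpos : 0 < P := by linarith
  have s4 : 0 < KK k P - P := by linarith [hA1 P hPpos hP.le]
  have s5 : AA k P = (KK k P - rt k P) / (KK k P - P) := by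
    unfold AA
    field_simp
    ring
  rcases le_total P (17 / 20) with h | h
  · rw [s5, le_div_iff₀ s4]
    have h1 := AL_KK_le k hk P hPpos.le h
    nlinarith
  · have h1 := AL_KK_ge k hk P h hP.le
    have h2 : rt k P ≤ 1 := AL_rt_le_one k P hPpos.le hP.le
    have h3 : (rt k P - P) / (KK k P - P) ≤ 3 / 4 := by
      rw [div_le_iff₀ s4]
      nlinarith
    unfold AA
    linarith

end Pool.Agent.Helper71.OT
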